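import Mathlib

open Set Filter Topology Metric MeasureTheory

namespace Pool.Agent.Results.MP_d100af_an.Yes

/-- Cantor set in the line -/
def IsCantor (K : Set ℝ) : Prop :=
  K.Nonempty ∧ IsCompact K ∧ IsTotallyDisconnected K ∧ Preperfect K

/-- tree distance set -/
def Delta {V : Type} (T : SimpleGraph V) (X : Set (ℝ × ℝ)) : Set (T.edgeSet → ℝ) :=
  {t | ∃ y : V → ℝ × ℝ, Function.Injective y ∧ (∀ v, y v ∈ X) ∧
    ∀ u v (h : T.Adj u v),
      t ⟨s(u, v), h⟩ = √(((y u).1 - (y v).1) ^ 2 + ((y u).2 - (y v).2) ^ 2)}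

lemma eta {K : Set ℝ} (hc : IsCompact K) (hp : Preperfect K) (r : ℝ) :
    ∃ η > 0, 0 < r → ∀ x ∈ K, ∃ z ∈ K, |z - x| < r / 2 ∧ η ≤ |z - x| := by
  by_cases hr : 0 < r
  swap
  · exact ⟨1, one_pos, fun h => absurd h hr⟩
  obtain ⟨n, hn⟩ := hc.elim_directed_cover
    (fun n : ℕ => ⋃ z ∈ K, {w | |z - w| < r / 2 ∧ 1 / ((n:ℝ) + 1) < |z - w|})
    (fun n => isOpen_biUnion fun z _ =>
      (isOpen_lt (f := fun w => |z - w|) (by fun_prop) continuous_const).and
        (isOpen_lt (g := fun w => |z - w|) continuous_const (by fun_prop)))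
    (fun x hx => by
      obtain ⟨z, ⟨hz1, hz2⟩, hz3⟩ := preperfect_iff_nhds.1 hp x hx _
        (ball_mem_nhds x (half_pos hr))
      obtain ⟨n, hn⟩ := exists_nat_one_div_lt (abs_pos.2 (sub_ne_zero.2 hz3))
      exact mem_iUnion.2 ⟨n, mem_biUnion hz2 ⟨hz1, hn⟩⟩)
    (Monotone.directed_le fun a b hab => biUnion_mono subset_rfl fun z _ w hw =>
      ⟨hw.1, lt_of_le_of_lt (Nat.one_div_le_one_div hab) hw.2⟩)
  refine ⟨1 / ((n:ℝ) + 1), by positivity, fun _ x hx => ?_⟩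
  obtain ⟨z, hz, h1, h2⟩ := mem_iUnion₂.1 (hn hx)
  exact ⟨z, hz, h1, h2.le⟩

lemma scales {K : Set ℝ} (hc : IsCompact K) (hp : Preperfect K) :
    ∃ r δ : ℕ → ℝ, (∀ n, 0 < δ n) ∧ (∀ n, r (n + 1) = δ n / (4 * (n + 1))) ∧ r 0 = 1 ∧
      (∀ n, δ n ≤ r n / 64) ∧
      ∀ n, ∀ x ∈ K, ∃ z ∈ K, |z - x| < r n / 2 ∧ 4 * (n + 1) * δ n ≤ |z - x| := by
  choose η hη h using eta hc hp
  let D : ℕ → ℝ → ℝ := fun n s => min (η s / (4 * (n + 1))) (s / 64)
  let r : ℕ → ℝ := fun n => Nat.rec 1 (fun k s => D k s / (4 * (k + 1))) n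
  have hr : ∀ n, 0 < r n := by
    intro n
    induction n with
    | zero => exact one_pos
    | succ k ih =>
      have := hη (r k)
      show 0 < min _ _ / _
      positivity
  refine ⟨r, fun n => D n (r n), fun n => ?_, fun n => rfl, rfl, fun n => min_le_right _ _,
    fun n x hx => ?_⟩
  · have := hη (r n); have := hr n
    show 0 < min _ _
    positivity
  · obtain ⟨z, hz, h1, h2⟩ := h (r n) (hr n) x hx
    refine ⟨z, hz, h1, le_trans ?_ h2⟩
    have : D n (r n) ≤ η (r n) / (4 * (n + 1)) := min_le_left _ _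
    rwa [le_div_iff₀ (by positivity), mul_comm] at this

lemma gap {K : Set ℝ} (hc : IsCompact K) {r δ : ℕ → ℝ} (h0 : ∀ n, 0 < δ n)
    (h1 : ∀ n, r (n + 1) = δ n / (4 * (n + 1))) (h2 : ∀ n, δ n ≤ r n / 64)
    (h3 : ∀ n, ∀ x ∈ K, ∃ z ∈ K, |z - x| < r n / 2 ∧ 4 * (n + 1) * δ n ≤ |z - x|)
    (p : ℕ → ℝ) (N : ℕ) {x0 : ℝ} (hx0 : x0 ∈ K) (g : ℝ → ℝ)
    (hg : ∀ x ∈ closedBall x0 (r N), ∀ z ∈ closedBall x0 (r N),
      |x - z| ≤ (N + 1) * |g x - g z| ∧ |g x - g z| ≤ (N + 1) * |x - z|) :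
    ∃ x ∈ K, x ∈ closedBall x0 (r N) ∧ ∀ n, N ≤ n → δ n ≤ |g x - p n| := by
  have hr : ∀ n, 0 < r n := fun n => by linarith [h0 n, h2 n]
  have hstep : ∀ k : ℕ, ∀ x, x ∈ K ∧ closedBall x (r (N + k)) ⊆ closedBall x0 (r N) →
      ∃ z ∈ K, closedBall z (r (N + k + 1)) ⊆ closedBall x (r (N + k)) ∧
        ∀ w ∈ closedBall z (r (N + k + 1)), δ (N + k) ≤ |g w - p (N + k)| := by
    rintro k x ⟨hx, hs⟩
    set n := N + k
    have hn : (N:ℝ) + 1 ≤ n + 1 := by simp [n]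
    have d0 := h0 n
    have n1 : (1:ℝ) ≤ n + 1 := by simp
    have e1 : (n + 1) * r (n + 1) = δ n / 4 := by rw [h1]; field_simp
    have e2 : r (n + 1) ≤ r n / 2 := by nlinarith [hr (n + 1), h2 n]
    obtain ⟨z, hz, z1, z2⟩ := h3 n x hx
    have fin : ∀ v ∈ K, |v - x| ≤ r n / 2 → 2 * δ n ≤ |g v - p n| →
        ∃ z ∈ K, closedBall z (r (n + 1)) ⊆ closedBall x (r n) ∧
        ∀ w ∈ closedBall z (r (n + 1)), δ n ≤ |g w - p n| := by
      intro v hv v1 v2
      have sub : closedBall v (r (n + 1)) ⊆ closedBall x (r n) :=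
        closedBall_subset_closedBall' (by rw [Real.dist_eq]; linarith)
      refine ⟨v, hv, sub, fun w hw => ?_⟩
      have a1 := (hg w (hs (sub hw)) v (hs (sub (mem_closedBall_self (hr _).le)))).2
      have a2 : |w - v| ≤ r (n + 1) := hw
      have a3 : (N + 1) * |w - v| ≤ (n + 1) * r (n + 1) := by gcongr
      have a4 := abs_sub_le (g v) (g w) (p n)
      rw [abs_sub_comm (g v) (g w)] at a4
      linarith
    by_cases hx2 : 2 * δ n ≤ |g x - p n|
    · exact fin x hx (by simp; linarith [hr n]) hx2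
    · refine fin z hz z1.le ?_
      have a1 := (hg z (hs (by rw [mem_closedBall, Real.dist_eq]; linarith [hr n])) x
        (hs (mem_closedBall_self (hr _).le))).1
      have a2 : (N + 1) * |g z - g x| ≤ (n + 1) * |g z - g x| := by gcongr
      have a3 : 4 * δ n ≤ |g z - g x| := by
        by_contra hh
        nlinarith
      have a4 := abs_sub_le (g z) (p n) (g x)
      rw [abs_sub_comm (p n)] at a4
      linarith
  choose! f hf using hstep
  let X : ℕ → ℝ := fun k => Nat.rec x0 f k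
  have hX : ∀ k, X k ∈ K ∧ closedBall (X k) (r (N + k)) ⊆ closedBall x0 (r N) := by
    intro k
    induction k with
    | zero => exact ⟨hx0, subset_rfl⟩
    | succ k ih => exact ⟨(hf k _ ih).1, (hf k _ ih).2.1.trans ih.2⟩
  obtain ⟨x, hx⟩ := IsCompact.nonempty_iInter_of_sequence_nonempty_isCompact_isClosed
    (fun k => K ∩ closedBall (X k) (r (N + k)))
    (fun k => inter_subset_inter_right _ (hf k _ (hX k)).2.1)
    (fun k => ⟨X k, (hX k).1, mem_closedBall_self (hr _).le⟩)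
    (hc.inter_right isClosed_closedBall) (fun k => hc.isClosed.inter isClosed_closedBall)
  rw [mem_iInter] at hx
  refine ⟨x, (hx 0).1, (hx 0).2, fun n hn => ?_⟩
  obtain ⟨k, rfl⟩ := Nat.exists_eq_add_of_le hn
  exact (hf k _ (hX k)).2.2 x (hx (k + 1)).2

lemma anal {m M r α β y1 av t t0 : ℝ} (hm : 0 < m) (hm1 : m ≤ 1) (hM : 1 ≤ M) (hr : 0 < r)
    (hr1 : 20 * M * r ≤ m ^ 2) (a1 : m ≤ |α|) (a2 : |α| ≤ M) (b1 : m ≤ β) (b2 : β ≤ M)
    (ht0 : t0 = √(α ^ 2 + β ^ 2)) (ht : |t - t0| ≤ r) (hy : |y1 - (av - α)| ≤ r) :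
    0 ≤ t ∧ (∀ x ∈ closedBall av r, 0 ≤ t ^ 2 - (x - y1) ^ 2 ∧
      |√(t ^ 2 - (x - y1) ^ 2) - β| ≤ 13 * M / m * r) ∧
    ∀ x ∈ closedBall av r, ∀ z ∈ closedBall av r,
      |x - z| ≤ 13 * M / m * |√(t ^ 2 - (x - y1) ^ 2) - √(t ^ 2 - (z - y1) ^ 2)| ∧
      |√(t ^ 2 - (x - y1) ^ 2) - √(t ^ 2 - (z - y1) ^ 2)| ≤ 13 * M / m * |x - z| := by
  have r1 : r ≤ m / 20 := by nlinarith
  have t1 : t0 ^ 2 = α ^ 2 + β ^ 2 := by rw [ht0, Real.sq_sqrt (by positivity)]
  have t2 : β ≤ t0 := by rw [ht0]; exact Real.le_sqrt_of_sq_le (by nlinarith [sq_nonneg α])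
  have t3 : t0 ≤ 2 * M := by
    rw [ht0]; refine Real.sqrt_le_iff.2 ⟨by linarith, ?_⟩
    rw [← sq_abs α]; nlinarith [abs_nonneg α]
  have hx : ∀ x ∈ closedBall av r, |(x - y1) - α| ≤ 2 * r := fun x hx => by
    have h1 : |x - av| ≤ r := hx
    rw [abs_le] at *; constructor <;> linarith [h1.1, h1.2, hy.1, hy.2]
  have hs : ∀ x ∈ closedBall av r, |t ^ 2 - (x - y1) ^ 2 - β ^ 2| ≤ 13 * M * r := fun x h => by
    have e : t ^ 2 - (x - y1) ^ 2 - β ^ 2 =
        (t - t0) * (t - t0 + 2 * t0) - ((x - y1) - α) * (((x - y1) - α) + 2 * α) := by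
      linear_combination t1
    have h1 := hx x h
    have h2 : |t - t0 + 2 * t0| ≤ 5 * M := by
      rw [abs_le] at *; constructor <;> linarith [ht.1, ht.2]
    have h3 : |((x - y1) - α) + 2 * α| ≤ 4 * M := by
      refine (abs_add_le _ _).trans ?_
      rw [abs_mul, abs_two]; linarith
    rw [e]
    refine (abs_sub _ _).trans ?_
    rw [abs_mul, abs_mul]
    have h4 : |t - t0| * |t - t0 + 2 * t0| ≤ r * (5 * M) := by gcongr
    have h5 : |x - y1 - α| * |x - y1 - α + 2 * α| ≤ (2 * r) * (4 * M) := by gcongr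
    linarith
  have hq : ∀ x ∈ closedBall av r, 0 ≤ t ^ 2 - (x - y1) ^ 2 ∧
      m / 2 ≤ √(t ^ 2 - (x - y1) ^ 2) ∧ √(t ^ 2 - (x - y1) ^ 2) ≤ 2 * M := fun x h => by
    have := abs_le.1 (hs x h)
    refine ⟨by nlinarith [this.1], Real.le_sqrt_of_sq_le (by nlinarith [this.1]),
      Real.sqrt_le_iff.2 ⟨by linarith, by nlinarith [this.2]⟩⟩
  refine ⟨by linarith [(abs_le.1 ht).1], fun x h => ⟨(hq x h).1, ?_⟩, fun x h z h' => ?_⟩
  · have h1 := hs x h
    obtain ⟨q0, q1, -⟩ := hq x h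
    have e : t ^ 2 - (x - y1) ^ 2 - β ^ 2 =
        (√(t ^ 2 - (x - y1) ^ 2) - β) * (√(t ^ 2 - (x - y1) ^ 2) + β) := by
      linear_combination -Real.sq_sqrt q0
    rw [e, abs_mul, abs_of_pos (by linarith : 0 < √(t ^ 2 - (x - y1) ^ 2) + β)] at h1
    rw [div_mul_eq_mul_div, le_div_iff₀ hm]
    refine le_trans ?_ h1
    gcongr; linarith
  · obtain ⟨q0, q1, q2⟩ := hq x h
    obtain ⟨p0, p1, p2⟩ := hq z h'
    set a := √(t ^ 2 - (x - y1) ^ 2)
    set b := √(t ^ 2 - (z - y1) ^ 2)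
    have e : (a - b) * (a + b) = -((x - z) * ((x - y1 - α) + (z - y1 - α) + 2 * α)) := by
      linear_combination Real.sq_sqrt q0 - Real.sq_sqrt p0
    have e2 := congrArg abs e
    rw [abs_neg, abs_mul, abs_mul, abs_of_pos (by linarith : 0 < a + b)] at e2
    have u1 := hx x h
    have u2 := hx z h'
    have u3 : |(x - y1 - α) + (z - y1 - α)| ≤ 4 * r := (abs_add_le _ _).trans (by linarith)
    have u4 : |(x - y1 - α) + (z - y1 - α) + 2 * α| ≤ 6 * M := by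
      refine (abs_add_le _ _).trans ?_
      rw [abs_mul, abs_two]; linarith
    have u5 : m ≤ |(x - y1 - α) + (z - y1 - α) + 2 * α| := by
      have := abs_sub ((x - y1 - α) + (z - y1 - α) + 2 * α) ((x - y1 - α) + (z - y1 - α))
      rw [add_sub_cancel_left, abs_mul, abs_two] at this
      linarith
    constructor
    · rw [div_mul_eq_mul_div, le_div_iff₀ hm]
      have v1 : |x - z| * m ≤ |x - z| * |(x - y1 - α) + (z - y1 - α) + 2 * α| := by gcongr
      have v2 : |a - b| * (a + b) ≤ |a - b| * (13 * M) := by gcongr; linarith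
      linarith
    · rw [div_mul_eq_mul_div, le_div_iff₀ hm]
      have v1 : |x - z| * |(x - y1 - α) + (z - y1 - α) + 2 * α| ≤ |x - z| * (13 * M) := by
        gcongr; linarith
      have v2 : |a - b| * m ≤ |a - b| * (a + b) := by gcongr; linarith
      linarith

lemma parent {n : ℕ} (T : SimpleGraph (Fin n)) (hT : T.IsTree) :
    ∃ (o : Fin n) (par : Fin n → Fin n) (rk : Fin n → ℕ), (∀ v, rk v ≤ n) ∧
      (∀ v, v ≠ o → T.Adj v (par v) ∧ rk (par v) < rk v) ∧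
      ∀ u v, T.Adj u v → (u ≠ o ∧ v = par u) ∨ (v ≠ o ∧ u = par v) := by
  classical
  obtain ⟨o⟩ := hT.connected.nonempty
  have hc := hT.connected
  have h1 : ∀ v, v ≠ o → ∃ w, T.Adj v w ∧ T.dist w o < T.dist v o := by
    intro v hv
    obtain ⟨p, hp⟩ := hc.exists_walk_length_eq_dist v o
    cases p with
    | nil => exact absurd rfl hv
    | cons h q => exact ⟨_, h, by have := T.dist_le q; simp at hp; omega⟩
  choose! par hpar using h1
  refine ⟨o, par, fun v => T.dist v o, fun v => ?_, hpar, fun u v huv => ?_⟩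
  · obtain ⟨p, hp, hp2⟩ := hc.exists_path_of_dist v o
    have := hp.length_lt
    simp only [Fintype.card_fin] at this
    show T.dist v o ≤ n
    omega
  · let F : {v // v ≠ o} → T.edgeSet := fun v => ⟨s(v.1, par v.1), (hpar v.1 v.2).1⟩
    have hinj : Function.Injective F := by
      intro a b hab
      have := congrArg Subtype.val hab
      simp only [F, Sym2.eq_iff] at this
      rcases this with h | h
      · exact Subtype.ext h.1
      · have k1 := (hpar a.1 a.2).2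
        have k2 := (hpar b.1 b.2).2
        rw [h.2] at k1; rw [← h.1] at k2; omega
    have hcard : Fintype.card {v // v ≠ o} = Fintype.card T.edgeSet := by
      have := hT.card_edgeFinset
      rw [SimpleGraph.edgeFinset_card] at this
      simp at this ⊢; omega
    obtain ⟨w, hw⟩ := ((Fintype.bijective_iff_injective_and_card F).2 ⟨hinj, hcard⟩).2
      ⟨s(u, v), huv⟩
    have := congrArg Subtype.val hw
    simp only [F, Sym2.eq_iff] at this
    rcases this with h | h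
    · exact Or.inl ⟨h.1 ▸ w.2, h.1 ▸ h.2.symm⟩
    · exact Or.inr ⟨h.1 ▸ w.2, h.1 ▸ h.2.symm⟩

lemma Zinf {δ : ℕ → ℝ} (h0 : ∀ n, 0 < δ n) (h : ∀ n, δ n ≤ (1 / 2) ^ n / 64) (p : ℕ → ℝ) :
    {y | y ∈ Icc (1 / 4 : ℝ) (3 / 4) ∧ ∀ n, 2 * δ n ≤ |y - p n|}.Infinite := by
  intro hf
  have h1 : Icc (1 / 4 : ℝ) (3 / 4) ⊆ {y | y ∈ Icc (1 / 4 : ℝ) (3 / 4) ∧
      ∀ n, 2 * δ n ≤ |y - p n|} ∪ ⋃ n, ball (p n) ((1 / 2) ^ n / 32) := by
    intro y hy
    by_cases h2 : ∀ n, 2 * δ n ≤ |y - p n|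
    · exact Or.inl ⟨hy, h2⟩
    · push Not at h2
      obtain ⟨n, hn⟩ := h2
      exact Or.inr (mem_iUnion.2 ⟨n, by rw [mem_ball, Real.dist_eq]; linarith [h n]⟩)
  have h2 := (measure_mono (μ := volume) h1).trans (measure_union_le _ _)
  rw [hf.measure_zero, zero_add] at h2
  have h3 := h2.trans (measure_iUnion_le _)
  simp only [Real.volume_ball, Real.volume_Icc] at h3
  have hs : HasSum (fun n : ℕ => 2 * ((1 / 2 : ℝ) ^ n / 32)) (2 * (2 / 32)) :=
    (hasSum_geometric_two.div_const 32).mul_left 2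
  rw [← ENNReal.ofReal_tsum_of_nonneg (fun n => by positivity) hs.summable, hs.tsum_eq,
    ENNReal.ofReal_le_ofReal_iff (by norm_num)] at h3
  norm_num at h3

theorem result (K : Set ℝ) (hK : IsCantor K) : ∃ K' : Set ℝ, IsCantor K' ∧
    ∀ (n : ℕ) (T : SimpleGraph (Fin n)), T.IsTree →
      (interior (Delta T (K ×ˢ K'))).Nonempty := by
  classical
  obtain ⟨⟨x0, hx0⟩, hc, -, hp⟩ := hK
  obtain ⟨r, δ, h0, h1, r0, h2, h3⟩ := scales hc hp
  have hr : ∀ n, 0 < r n := fun n => by linarith [h0 n, h2 n]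
  have e1 : ∀ n : ℕ, (n + 1) * r (n + 1) = δ n / 4 := fun n => by rw [h1]; field_simp
  have e2 : ∀ n, r (n + 1) ≤ δ n / 4 := fun n => by
    nlinarith [e1 n, hr (n + 1), (Nat.cast_nonneg n : (0:ℝ) ≤ n)]
  have hr2 : ∀ n, r n ≤ (1 / 2) ^ n := by
    intro n
    induction n with
    | zero => simp [r0]
    | succ k ih => rw [pow_succ]; linarith [e2 k, h2 k, hr k]
  have hanti : Antitone δ := antitone_nat_of_succ_le fun n => by
    linarith [h2 (n + 1), e2 n, h0 n]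
  obtain ⟨q, hq⟩ := exists_surjective_nat ℚ
  have hcl : IsClosed (Icc (0:ℝ) 1 ∩ ⋂ m, {y | δ (2 * m) ≤ |y - q m|}) :=
    isClosed_Icc.inter (isClosed_iInter fun m => isClosed_le continuous_const (by fun_prop))
  obtain ⟨V, D, hV, hD, hVD⟩ := exists_countable_union_perfect_of_isClosed hcl
  obtain ⟨d, hd⟩ := (hV.insert 0).exists_eq_range (insert_nonempty _ _)
  let p : ℕ → ℝ := fun n => if n % 2 = 0 then q (n / 2) else d (n / 2)
  have good : ∀ y ∈ Icc (0:ℝ) 1, (∀ n, δ n ≤ |y - p n|) → y ∈ D := by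
    intro y hy h
    have : y ∈ V ∪ D := by
      rw [← hVD]
      refine ⟨hy, mem_iInter.2 fun m => ?_⟩
      simpa [p] using h (2 * m)
    refine this.resolve_left fun hyV => ?_
    obtain ⟨m, hm⟩ : y ∈ range d := hd ▸ mem_insert_of_mem _ hyV
    have h4 := h (2 * m + 1)
    have h5 : (2 * m + 1) / 2 = m := by omega
    simp [p, h5, hm] at h4
    linarith [h0 (2 * m + 1)]
  have hZ := Zinf h0 (fun n => by linarith [h2 n, hr2 n]) p
  have hDs : D ⊆ Icc (0:ℝ) 1 ∩ ⋂ m, {y | δ (2 * m) ≤ |y - q m|} := hVD ▸ subset_union_right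
  have goodZ : ∀ y, (y ∈ Icc (1 / 4 : ℝ) (3 / 4) ∧ ∀ n, 2 * δ n ≤ |y - p n|) → y ∈ D :=
    fun y hy => good y ⟨by linarith [hy.1.1], by linarith [hy.1.2]⟩
      fun n => by linarith [hy.2 n, h0 n]
  refine ⟨D, ⟨?_, isCompact_Icc.of_isClosed_subset hD.closed fun y hy => (hDs hy).1, ?_,
    hD.acc⟩, fun n T hT => ?_⟩
  · obtain ⟨y, hy⟩ := hZ.nonempty
    exact ⟨y, goodZ y hy⟩
  · rw [isTotallyDisconnected_iff_lt]
    intro x _ y _ hxy
    obtain ⟨z, hz⟩ := exists_rat_btwn hxy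
    obtain ⟨m, rfl⟩ := hq z
    refine ⟨q m, fun h => ?_, hz⟩
    have := mem_iInter.1 (hDs h).2 m
    simp at this
    linarith [h0 (2 * m)]
  obtain ⟨o, par, rk, hrk, hpar, hedge⟩ := parent T hT
  have hKi : K.Infinite := Set.Infinite.of_accPt (hp x0 hx0)
  let a : Fin n → ℝ := fun v => hKi.natEmbedding K v
  let b : Fin n → ℝ := fun v => hZ.natEmbedding _ v
  have aK : ∀ v, a v ∈ K := fun v => (hKi.natEmbedding K v).2
  have bZ : ∀ v, b v ∈ Icc (1 / 4 : ℝ) (3 / 4) ∧ ∀ n, 2 * δ n ≤ |b v - p n| :=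
    fun v => (hZ.natEmbedding _ v).2
  have ai : Function.Injective a := fun u v h =>
    Fin.ext ((hKi.natEmbedding K).injective (Subtype.ext h))
  have bi : Function.Injective b := fun u v h =>
    Fin.ext ((hZ.natEmbedding _).injective (Subtype.ext h))
  clear_value a b
  have : Nonempty (Fin n) := ⟨o⟩
  obtain ⟨m, hm, hm1, hma⟩ : ∃ m : ℝ, 0 < m ∧ m ≤ 1 ∧
      ∀ u v, u ≠ v → m ≤ |a u - a v| ∧ m ≤ |b u - b v| := by
    obtain ⟨w, hw⟩ := Finite.exists_min fun w : Fin n × Fin n =>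
      if w.1 = w.2 then (1:ℝ) else min |a w.1 - a w.2| |b w.1 - b w.2|
    refine ⟨if w.1 = w.2 then (1:ℝ) else min |a w.1 - a w.2| |b w.1 - b w.2|, ?_,
      by simpa using hw (o, o), fun u v h => ?_⟩
    · split_ifs with h
      · exact one_pos
      · exact lt_min (abs_pos.2 (sub_ne_zero.2 (ai.ne h))) (abs_pos.2 (sub_ne_zero.2 (bi.ne h)))
    · have := hw (u, v)
      rwa [if_neg h, le_min_iff] at this
  obtain ⟨M, hM, hMa⟩ : ∃ M : ℝ, 1 ≤ M ∧ ∀ u v, |a u - a v| ≤ M ∧ |b u - b v| ≤ M := by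
    obtain ⟨w, hw⟩ := Finite.exists_max fun w : Fin n × Fin n =>
      max 1 (max |a w.1 - a w.2| |b w.1 - b w.2|)
    refine ⟨max 1 (max |a w.1 - a w.2| |b w.1 - b w.2|), le_max_left _ _, fun u v => ?_⟩
    have := hw (u, v)
    rw [max_le_iff, max_le_iff] at this
    exact this.2
  set A := 13 * M / m with hA
  have hA0 : 0 < A := by positivity
  obtain ⟨N, hN1, hN2⟩ : ∃ N : ℕ, (n + 1) * A ≤ N ∧ (1 / 2 : ℝ) ^ N < m ^ 2 / (20 * M) :=
    ((tendsto_natCast_atTop_atTop.eventually_ge_atTop _).and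
      ((tendsto_pow_atTop_nhds_zero_of_lt_one (by norm_num) (by norm_num)).eventually
        (gt_mem_nhds (by positivity)))).exists
  set ρ := r (N + 1) with hρ
  have ρ0 : 0 < ρ := hr _
  have ρ1 : 20 * M * ρ ≤ m ^ 2 := by
    have := hr2 (N + 1)
    rw [pow_succ] at this
    rw [lt_div_iff₀ (by positivity)] at hN2
    have h5 : (0:ℝ) < (1 / 2) ^ N := by positivity
    nlinarith
  have hAN : A ≤ ((N + 1 : ℕ) : ℝ) + 1 := by
    push_cast; nlinarith [(Nat.cast_nonneg n : (0:ℝ) ≤ n)]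
  let t0 : T.edgeSet → ℝ := fun e => Sym2.lift
    ⟨fun u v => √((a u - a v) ^ 2 + (b u - b v) ^ 2), fun u v => congrArg Real.sqrt (by ring)⟩ e.1
  refine ⟨t0, mem_interior_iff_mem_nhds.2 (mem_of_superset (ball_mem_nhds t0 ρ0) fun t ht => ?_)⟩
  have ht' : ∀ e, |t e - t0 e| ≤ ρ := fun e =>
    ((dist_le_pi_dist t t0 e).trans (mem_ball.1 ht).le)
  let G : Fin n → ℝ × ℝ → Prop := fun v w =>
    w.1 ∈ K ∧ |w.1 - a v| ≤ ρ ∧ w.2 ∈ D ∧ |w.2 - b v| ≤ rk v * (A * ρ)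
  have hs : ∀ v w, (v ≠ o → G (par v) w) → ∃ w', G v w' ∧ ∀ h : v ≠ o,
      t ⟨s(v, par v), (hpar v h).1⟩ = √((w'.1 - w.1) ^ 2 + (w'.2 - w.2) ^ 2) := by
    intro v w hw
    by_cases hv : v = o
    · exact ⟨(a v, b v), ⟨aK v, by simpa using ρ0.le, goodZ _ (bZ v), by simp; positivity⟩,
        fun h => absurd hv h⟩
    obtain ⟨w1, w2, w3, w4⟩ := hw hv
    obtain ⟨ad, rl⟩ := hpar v hv
    set s := t ⟨s(v, par v), ad⟩ with hsd
    obtain ⟨s0, s1, s2⟩ := anal (α := a v - a (par v)) (β := |b v - b (par v)|) (y1 := w.1)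
      (av := a v) (t := s) (t0 := t0 ⟨s(v, par v), ad⟩) hm hm1 hM ρ0 ρ1 (hma _ _ ad.ne).1
      (hMa _ _).1 (hma _ _ ad.ne).2 (hMa _ _).2 (by simp [t0]) (ht' _) (by simpa using w2)
    obtain ⟨σ, σ1, σ2⟩ : ∃ σ : ℝ, |σ| = 1 ∧ σ * |b v - b (par v)| = b v - b (par v) := by
      rcases le_total 0 (b v - b (par v)) with h | h
      · exact ⟨1, by simp, by simp [abs_of_nonneg h]⟩
      · exact ⟨-1, by simp, by simp [abs_of_nonpos h]⟩
    obtain ⟨x, xK, xb, xg⟩ := gap hc h0 h1 h2 h3 p (N + 1) (aK v)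
      (fun x => w.2 + σ * √(s ^ 2 - (x - w.1) ^ 2)) (fun x hx z hz => by
        obtain ⟨u1, u2⟩ := s2 x hx z hz
        rw [add_sub_add_left_eq_sub, ← mul_sub, abs_mul, σ1, one_mul]
        exact ⟨u1.trans (by gcongr), u2.trans (by gcongr)⟩)
    obtain ⟨u0, u1⟩ := s1 x xb
    have u2 : |w.2 + σ * √(s ^ 2 - (x - w.1) ^ 2) - b v| ≤ rk v * (A * ρ) := by
      have e : w.2 + σ * √(s ^ 2 - (x - w.1) ^ 2) - b v = (w.2 - b (par v)) +
          σ * (√(s ^ 2 - (x - w.1) ^ 2) - |b v - b (par v)|) := by linear_combination σ2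
      rw [e]
      refine (abs_add_le _ _).trans ?_
      rw [abs_mul, σ1, one_mul]
      have : ((rk (par v) : ℝ) + 1) * (A * ρ) ≤ rk v * (A * ρ) := by
        gcongr; exact_mod_cast rl
      linarith
    have u3 : (rk v : ℝ) * (A * ρ) ≤ δ N / 4 := by
      have k1 : (rk v : ℝ) ≤ n := by exact_mod_cast hrk v
      have k2 : (rk v : ℝ) * A ≤ N + 1 := by nlinarith
      rw [← e1 N, ← mul_assoc]; gcongr
    have u4 := abs_le.1 (u2.trans u3)
    have u5 : δ N ≤ 1 / 64 := by linarith [hanti (Nat.zero_le N), h2 0]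
    refine ⟨(x, w.2 + σ * √(s ^ 2 - (x - w.1) ^ 2)), ⟨xK, xb, good _
      ⟨by linarith [(bZ v).1.1, u4.1], by linarith [(bZ v).1.2, u4.2]⟩ fun k => ?_, u2⟩,
      fun _ => ?_⟩
    · rcases le_or_gt (N + 1) k with hk | hk
      · exact xg k hk
      · have k1 := hanti (Nat.lt_succ_iff.1 hk)
        have k2 := (bZ v).2 k
        have k3 := abs_sub_le (b v) (w.2 + σ * √(s ^ 2 - (x - w.1) ^ 2)) (p k)
        rw [abs_sub_comm (b v) (w.2 + _)] at k3
        show δ k ≤ |w.2 + σ * √(s ^ 2 - (x - w.1) ^ 2) - p k|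
        linarith [h0 k]
    · have σ3 : σ ^ 2 = 1 := by rw [← sq_abs, σ1]; norm_num
      simp only [add_sub_cancel_left]
      rw [mul_pow, σ3, Real.sq_sqrt u0, one_mul, add_sub_cancel, Real.sqrt_sq s0]
  choose! st hst using hs
  have hy : ∀ k, ∃ y : Fin n → ℝ × ℝ, ∀ v, rk v < k → G v (y v) ∧ ∀ h : v ≠ o,
      t ⟨s(v, par v), (hpar v h).1⟩ =
        √(((y v).1 - (y (par v)).1) ^ 2 + ((y v).2 - (y (par v)).2) ^ 2) := by
    intro k
    induction k with
    | zero => exact ⟨fun _ => 0, fun v hv => absurd hv (Nat.not_lt_zero _)⟩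
    | succ k ih =>
      obtain ⟨y, hy⟩ := ih
      refine ⟨fun v => if rk v = k then st v (y (par v)) else y v, fun v hv => ?_⟩
      by_cases hk : rk v = k
      · obtain ⟨g1, g2⟩ := hst v (y (par v)) fun h => (hy _ (hk ▸ (hpar v h).2)).1
        simp only [if_pos hk]
        refine ⟨g1, fun h => ?_⟩
        rw [if_neg (hk ▸ (hpar v h).2).ne]
        exact g2 h
      · obtain ⟨g1, g2⟩ := hy v (by omega)
        simp only [if_neg hk]
        refine ⟨g1, fun h => ?_⟩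
        rw [if_neg (by have := (hpar v h).2; omega)]
        exact g2 h
  obtain ⟨y, hy⟩ := hy (n + 1)
  have hy' := fun v => hy v (Nat.lt_succ_of_le (hrk v))
  refine ⟨y, fun u v huv => ?_, fun v => ⟨(hy' v).1.1, (hy' v).1.2.2.1⟩, fun u v h => ?_⟩
  · by_contra hne
    have k1 := (hma u v hne).1
    have k2 := (hy' u).1.2.1
    have k3 := (hy' v).1.2.1
    rw [huv, abs_sub_comm] at k2
    have k4 := abs_sub_le (a u) (y v).1 (a v)
    nlinarith
  · rcases hedge u v h with ⟨k1, rfl⟩ | ⟨k1, rfl⟩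
    · exact (hy' u).2 k1
    · have := (hy' v).2 k1
      have e : (⟨s(par v, v), h⟩ : T.edgeSet) = ⟨s(v, par v), (hpar v k1).1⟩ :=
        Subtype.ext Sym2.eq_swap
      rw [e, this]; congr 1; ring

end Pool.Agent.Results.MP_d100af_an.Yes
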